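import Pool.Agent.H46.CH.LT

/-!
# The edges of a structure
-/

set_option autoImplicit false

namespace Pool.Agent.H45.CH

open Classical
open Pool.Agent.H46.CH

theorem ncard_sum {A : Type} [Fintype A] (P : A → Prop) [DecidablePred P] :
    {x | P x}.ncard = ∑ x, if P x then 1 else 0 := by
  rw [Finset.sum_boole, Set.ncard_eq_toFinset_card', Nat.cast_id]
  congr 1
  ext x
  simp

/-- double counting -/
theorem dbl {J A : Type} [Fintype J] [Finite A] (b : A → ℕ) (g : A → Option J)
    (r : A → A → Prop) (s s' : ℕ) (j : J) (m : Option J → ℕ)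
    (h1 : ∀ y, b y = s' → g y = some j → {x | r x y}.ncard = 1)
    (h2 : ∀ x, b x = s → {y | r x y ∧ g y = some j}.ncard = m (g x))
    (h3 : ∀ x y, r x y → (b x = s ↔ b y = s'))
    (h4 : {x | b x = s ∧ g x = none}.ncard = 1) :
    {y | b y = s' ∧ g y = some j}.ncard =
      m none + ∑ k, m (some k) * {x | b x = s ∧ g x = some k}.ncard := by
  have := Fintype.ofFinite A
  calc {y | b y = s' ∧ g y = some j}.ncard
      = ∑ y, if b y = s' ∧ g y = some j then 1 else 0 := ncard_sum _
    _ = ∑ y, ∑ x, if r x y ∧ b y = s' ∧ g y = some j then 1 else 0 := by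
        refine Finset.sum_congr rfl fun y _ => ?_
        by_cases h : b y = s' ∧ g y = some j
        · refine (if_pos h).trans ((h1 y h.1 h.2).symm.trans ?_)
          rw [ncard_sum]
          refine Finset.sum_congr rfl fun x _ => ?_
          exact if_congr ⟨fun h' => ⟨h', h⟩, fun h' => h'.1⟩ rfl rfl
        · rw [if_neg h]
          symm
          exact Finset.sum_eq_zero fun x _ => if_neg fun h' => h h'.2
    _ = ∑ x, ∑ y, if r x y ∧ b y = s' ∧ g y = some j then 1 else 0 := Finset.sum_comm
    _ = ∑ x, if b x = s then m (g x) else 0 := by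
        refine Finset.sum_congr rfl fun x _ => ?_
        by_cases h : b x = s
        · rw [if_pos h, ← h2 x h, ncard_sum]
          refine Finset.sum_congr rfl fun y _ => ?_
          exact if_congr ⟨fun h' => ⟨h'.1, h'.2.2⟩,
            fun h' => ⟨h'.1, (h3 x y h'.1).1 h, h'.2⟩⟩ rfl rfl
        · rw [if_neg h]
          exact Finset.sum_eq_zero fun y _ => if_neg fun h' => h ((h3 x y h'.1).2 h'.2.1)
    _ = ∑ x, ∑ o : Option J, if b x = s ∧ g x = o then m o else 0 := by
        refine Finset.sum_congr rfl fun x _ => ?_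
        by_cases h : b x = s
        · rw [if_pos h, Finset.sum_eq_single (g x)]
          · rw [if_pos ⟨h, rfl⟩]
          · intro o _ ho
            exact if_neg fun h' => ho h'.2.symm
          · intro h'
            exact absurd (Finset.mem_univ _) h'
        · rw [if_neg h]
          symm
          exact Finset.sum_eq_zero fun o _ => if_neg fun h' => h h'.1
    _ = ∑ o : Option J, ∑ x, if b x = s ∧ g x = o then m o else 0 := Finset.sum_comm
    _ = ∑ o : Option J, m o * {x | b x = s ∧ g x = o}.ncard := by
        refine Finset.sum_congr rfl fun o _ => ?_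
        rw [ncard_sum, Finset.mul_sum]
        refine Finset.sum_congr rfl fun x _ => ?_
        split_ifs
        · rw [mul_one]
        · rw [mul_zero]
    _ = m none * {x | b x = s ∧ g x = none}.ncard +
          ∑ k, m (some k) * {x | b x = s ∧ g x = some k}.ncard := Fintype.sum_option _
    _ = _ := by rw [h4, mul_one]

section
variable {J : Type} [Fintype J]

theorem outc_pos (M : AM J) (l : M.Lb) (i : M.I) (h : l.2.1 = some i) (hd : M.dir i = true)
    (j : J) : (fun l' a _ => a 1 ∧ l'.2.2 = some j,
      (match l.2.2 with | some k => M.A i j k | none => M.c i j), true) ∈ M.lc.ct l := by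
  refine List.mem_append_left _ (List.mem_append_right _ ?_)
  unfold AM.outc
  rw [h]
  simp only [if_pos hd]
  refine List.mem_cons_of_mem _ (List.mem_map.2 ⟨j, by simp, rfl⟩)

theorem outc_neg (M : AM J) (l : M.Lb) (i : M.I) (h : l.2.1 = some i) (hd : ¬ M.dir i = true) :
    (fun _ a _ => a 1, if l.2.2 = none then 0 else 1, true) ∈ M.lc.ct l := by
  refine List.mem_append_left _ (List.mem_append_right _ ?_)
  unfold AM.outc
  rw [h]
  simp only [if_neg hd]
  exact List.mem_cons_self ..

theorem inc_pos (M : AM J) (l : M.Lb) (i : M.I) (h : l.1 = some i) (hd : M.dir i = true) :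
    (fun _ _ b => b 1, if l.2.2 = none then 0 else 1, true) ∈ M.lc.ct l := by
  refine List.mem_append_right _ ?_
  unfold AM.inc
  rw [h]
  simp only [if_pos hd]
  exact List.mem_cons_self ..

theorem inc_neg (M : AM J) (l : M.Lb) (i : M.I) (h : l.1 = some i) (hd : ¬ M.dir i = true)
    (j : J) : (fun l' _ b => b 1 ∧ l'.2.2 = some j,
      (match l.2.2 with | some k => M.A i j k | none => M.c i j), true) ∈ M.lc.ct l := by
  refine List.mem_append_right _ ?_
  unfold AM.inc
  rw [h]
  simp only [if_neg hd]
  refine List.mem_cons_of_mem _ (List.mem_map.2 ⟨j, by simp, rfl⟩)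

/-- the edges of a structure -/
theorem pf_B2 : T_B2 := by
  intro J _ M A _ R lab T b e hb hS hl1 hl2 hh t ht
  obtain ⟨hok, hpr, hct⟩ := hS
  have hR : ∀ x y, x ≠ y → R 1 x y → b y = b x + 1 := by
    intro x y h h1
    obtain ⟨h2, h3, -⟩ := (hpr x y h).2.2 h1
    have h4 : R 0 x y := h2
    have h5 : ¬ R 0 y x := h3
    rw [hb] at h4 h5
    omega
  have g1 : ∀ y, b y = t + 1 → (lab y).1 = some (e t) := by
    intro y hy
    rw [hl1, hy, if_neg (Nat.succ_ne_zero t), Nat.add_sub_cancel]
  have g2 : ∀ x, b x = t → (lab x).2.1 = some (e t) := by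
    intro x hx
    rw [hl2, hx, if_neg (Nat.ne_of_lt ht)]
  unfold AM.Rel
  by_cases hd : M.dir (e t) = true
  · rw [if_pos hd]
    intro j
    refine dbl b (fun x => (lab x).2.2) (fun x y => x ≠ y ∧ R 1 x y) t (t + 1) j
      (fun o => match o with | some k => M.A (e t) j k | none => M.c (e t) j) ?_ ?_ ?_ ?_
    · intro y hy hj
      have h := hct y _ (inc_pos M (lab y) (e t) (g1 y hy) hd)
      rw [if_pos rfl] at h
      have hj' : (lab y).2.2 = some j := hj
      rw [hj', if_neg (by simp)] at h
      exact h
    · intro x hx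
      have h := hct x _ (outc_pos M (lab x) (e t) (g2 x hx) hd j)
      rw [if_pos rfl] at h
      refine Eq.trans ?_ h
      unfold pn
      congr 1
      ext y
      exact ⟨fun h => ⟨fun h' => h.1.1 h'.symm, h.1.2, h.2⟩,
        fun h => ⟨⟨fun h' => h.1 h'.symm, h.2.1⟩, h.2.2⟩⟩
    · intro x y h
      have := hR x y h.1 h.2
      omega
    · exact hh t ht.le
  · rw [if_neg hd]
    intro j
    refine dbl b (fun x => (lab x).2.2) (fun x y => x ≠ y ∧ R 1 y x) (t + 1) t j
      (fun o => match o with | some k => M.A (e t) j k | none => M.c (e t) j) ?_ ?_ ?_ ?_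
    · intro y hy hj
      have h := hct y _ (outc_neg M (lab y) (e t) (g2 y hy) hd)
      rw [if_pos rfl] at h
      have hj' : (lab y).2.2 = some j := hj
      rw [hj', if_neg (by simp)] at h
      exact h
    · intro x hx
      have h := hct x _ (inc_neg M (lab x) (e t) (g1 x hx) hd j)
      rw [if_pos rfl] at h
      refine Eq.trans ?_ h
      unfold pn
      congr 1
      ext y
      exact ⟨fun h => ⟨fun h' => h.1.1 h'.symm, h.1.2, h.2⟩,
        fun h => ⟨⟨fun h' => h.1 h'.symm, h.2.1⟩, h.2.2⟩⟩
    · intro x y h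
      have := hR y x h.1.symm h.2
      omega
    · exact hh (t + 1) ht

end

end Pool.Agent.H45.CH
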